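import Pool.Agent.W307.QF.Stm

/-!
Project QF (helper307): the moments over coprime pairs in short squares, change of variables.
-/

set_option autoImplicit false

namespace Pool.Agent.W54.QF

open Finset Polynomial Pool.Agent.W262.RK Pool.Agent.W307.RT Pool.Agent.W307.RS
open Pool.Agent.W307.QF

theorem size_aux (q X B : ℕ) (hX : 1 ≤ X) (N1 N2 : ℤ) (h1 : N1.natAbs ≤ X ^ B)
    (h2 : N2.natAbs ≤ X ^ B) : (N2 - q * N1 - q * X).natAbs ≤ ((q + 1) * X) ^ (B + 2) := by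
  have e1 : (N2 - q * N1 - q * X).natAbs ≤ N2.natAbs + q * N1.natAbs + q * X := by
    have a1 := Int.natAbs_sub_le (N2 - q * N1) (q * X)
    have a2 := Int.natAbs_sub_le N2 (q * N1)
    rw [Int.natAbs_mul] at a1 a2
    simp only [Int.natAbs_natCast] at a1 a2
    omega
  have hXB : X ^ B ≤ X ^ (B + 2) := Nat.pow_le_pow_right hX (by omega)
  have hX1 : X ≤ X ^ (B + 2) := by
    calc X = X ^ 1 := (pow_one X).symm
      _ ≤ X ^ (B + 2) := Nat.pow_le_pow_right hX (by omega)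
  have e2 : N2.natAbs + q * N1.natAbs + q * X ≤ (2 * q + 1) * X ^ (B + 2) := by
    have b1 : q * N1.natAbs ≤ q * X ^ (B + 2) := Nat.mul_le_mul_left q (h1.trans hXB)
    have b2 : q * X ≤ q * X ^ (B + 2) := Nat.mul_le_mul_left q hX1
    have b3 := h2.trans hXB
    calc N2.natAbs + q * N1.natAbs + q * X ≤ X ^ (B + 2) + q * X ^ (B + 2) + q * X ^ (B + 2) := by
          omega
      _ = (2 * q + 1) * X ^ (B + 2) := by ring
  have e3 : 2 * q + 1 ≤ (q + 1) ^ (B + 2) := by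
    calc 2 * q + 1 ≤ (q + 1) ^ 2 := by nlinarith
      _ ≤ (q + 1) ^ (B + 2) := Nat.pow_le_pow_right (Nat.succ_pos q) (by omega)
  rw [mul_pow]
  exact e1.trans (e2.trans (Nat.mul_le_mul_right _ e3))

theorem step (S : Finset (ℤ × ℤ)) (S' : Finset (ℕ × ℕ)) (F : ℤ × ℤ → ℝ) (G : ℕ × ℕ → ℝ)
    (φ : ℤ × ℤ → ℕ × ℕ) (h1 : ∀ t ∈ S, φ t ∈ S') (h2 : ∀ t ∈ S, ∀ t' ∈ S, φ t = φ t' → t = t')
    (h3 : ∀ t ∈ S, F t = G (φ t)) (h4 : ∀ s ∈ S', 0 ≤ G s) :
    ∑ t ∈ S, F t ≤ ∑ s ∈ S', G s := by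
  classical
  calc ∑ t ∈ S, F t = ∑ t ∈ S, G (φ t) := sum_congr rfl h3
    _ = ∑ s ∈ S.image φ, G s := (sum_image (fun t ht t' ht' h => h2 t ht t' ht' h)).symm
    _ ≤ ∑ s ∈ S', G s := by
        refine sum_le_sum_of_subset_of_nonneg ?_ (fun s hs _ => h4 s hs)
        intro s hs
        obtain ⟨t, ht, rfl⟩ := mem_image.1 hs
        exact h1 t ht

theorem exists_q {J : Type} [Fintype J] (α β : J → ℤ) (h : ∀ i, α i ≠ 0 ∨ β i ≠ 0) :
    ∃ q : ℕ, ∀ i, α i + (q : ℤ) * β i ≠ 0 := by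
  refine ⟨∑ i, (α i).natAbs + 1, ?_⟩
  intro i hi
  have h1 : (α i).natAbs ≤ ∑ i, (α i).natAbs :=
    single_le_sum (f := fun i => (α i).natAbs) (fun _ _ => Nat.zero_le _) (mem_univ i)
  obtain ⟨q, hq⟩ : ∃ q : ℕ, q = ∑ i, (α i).natAbs + 1 := ⟨_, rfl⟩
  rw [← hq] at hi
  have hβ : β i ≠ 0 := by
    intro h0
    rw [h0, mul_zero, add_zero] at hi
    rcases h i with h2 | h2
    · exact h2 hi
    · exact h2 h0
  have h3 : (α i).natAbs = q * (β i).natAbs := by
    have h4 : α i = -((q : ℤ) * β i) := by linarith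
    rw [h4, Int.natAbs_neg, Int.natAbs_mul, Int.natAbs_natCast]
  have h5 : 1 ≤ (β i).natAbs := Int.natAbs_pos.2 hβ
  have h6 : q * 1 ≤ q * (β i).natAbs := Nat.mul_le_mul_left q h5
  omega

theorem avd_of (h : Pool.Agent.W307.QF.AVC) : Pool.Agent.W307.QF.AVD := by
  intro J1 J2 _ _ _ _ α β qa qb qc a k B hD ha ha' hk
  obtain ⟨q, hq⟩ := exists_q α β hD.nz0
  obtain ⟨α', hα'⟩ : ∃ α' : J1 → ℤ, ∀ i, α' i = α i + (q : ℤ) * β i := ⟨_, fun i => rfl⟩
  obtain ⟨qa', hqa'⟩ : ∃ qa' : J2 → ℤ, ∀ j, qa' j = qa j + (q : ℤ) * qb j + (q : ℤ) ^ 2 * qc j :=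
    ⟨_, fun j => rfl⟩
  obtain ⟨qb', hqb'⟩ : ∃ qb' : J2 → ℤ, ∀ j, qb' j = qb j + 2 * (q : ℤ) * qc j := ⟨_, fun j => rfl⟩
  have hq' : ∀ i, α' i ≠ 0 := by
    intro i
    rw [hα']
    exact hq i
  have hD' : DatC α' β qa' qb' qc := by
    refine ⟨?_, fun i => Or.inl (hq' i), ?_, ?_⟩
    · intro i j hij heq
      apply hD.lin i j hij
      rw [hα', hα'] at heq
      linear_combination heq
    · intro j hsq
      apply hD.irr j
      have e : qb j ^ 2 - 4 * qa j * qc j = qb' j ^ 2 - 4 * qa' j * qc j := by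
        rw [hqa', hqb']
        ring
      rw [e]
      exact hsq
    · rintro i j hij ⟨g1, g2, g3⟩
      rw [hqa', hqa', hqb', hqb'] at g1
      rw [hqa', hqa'] at g2
      rw [hqb', hqb'] at g3
      apply hD.quad i j hij
      have k3 : qb i * qc j = qb j * qc i := by linear_combination g3
      have k2 : qa i * qc j = qa j * qc i := by linear_combination g2 - (q : ℤ) * k3
      refine ⟨?_, k2, k3⟩
      linear_combination g1 - 2 * (q : ℤ) * k2 - (q : ℤ) ^ 2 * k3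
  have hfb : ∀ (u v v' : ℤ), v' = v - q * u → ∀ j, fb α β qa qb qc u v j =
      fb α' β qa' qb' qc u v' j := by
    intro u v v' hv' j
    rw [hv']
    cases j with
    | inl j =>
      show α j * u + β j * v = α' j * u + β j * (v - q * u)
      rw [hα']
      ring
    | inr j =>
      show qa j * u ^ 2 + qb j * (u * v) + qc j * v ^ 2 =
        qa' j * u ^ 2 + qb' j * (u * (v - q * u)) + qc j * (v - q * u) ^ 2
      rw [hqa', hqb']
      ring
  obtain ⟨C, hC⟩ := h J1 J2 α' β qa' qb' qc a k (B + 2) hD' hq' ha ha' hk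
  refine ⟨C * ((q : ℝ) + 1) ^ 2, ?_⟩
  intro U V X hX hU hV
  have hXX' : X ≤ (q + 1) * X := Nat.le_mul_of_pos_left X (Nat.succ_pos q)
  have hX'1 : 1 ≤ (q + 1) * X := hX.trans hXX'
  have hb1 : U.natAbs ≤ ((q + 1) * X) ^ (B + 2) :=
    hU.trans ((Nat.pow_le_pow_left hXX' B).trans (Nat.pow_le_pow_right hX'1 (by omega)))
  have hb2 : (V - q * U - q * X).natAbs ≤ ((q + 1) * X) ^ (B + 2) := size_aux q X B hX U V hU hV
  have key := hC U (V - q * U - q * X) ((q + 1) * X) hX'1 hb1 hb2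
  have hfin : C * (((q + 1) * X : ℕ) : ℝ) ^ 2 = C * ((q : ℝ) + 1) ^ 2 * (X : ℝ) ^ 2 := by
    push_cast
    ring
  rw [hfin] at key
  refine (step _ _ _ _ (fun t => ((t.1 - U).toNat, (t.2 - V + q * (X - (t.1 - U))).toNat))
    ?_ ?_ ?_ ?_).trans key
  · intro t ht
    rw [mem_filter, mem_product, mem_Ioc, mem_Ioc] at ht
    obtain ⟨⟨⟨t1, t2⟩, t3, t4⟩, t5, t6⟩ := ht
    have p0 : 0 ≤ (q : ℤ) * (X - (t.1 - U)) := mul_nonneg (by positivity) (by linarith)
    have p1 : (q : ℤ) * (X - (t.1 - U)) ≤ q * X :=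
      mul_le_mul_of_nonneg_left (by linarith) (by positivity)
    have e1 : (((t.1 - U).toNat : ℕ) : ℤ) = t.1 - U := Int.toNat_of_nonneg (by linarith)
    have e2 : (((t.2 - V + q * (X - (t.1 - U))).toNat : ℕ) : ℤ) =
        t.2 - V + q * (X - (t.1 - U)) := Int.toNat_of_nonneg (by linarith)
    have e3 : U + (t.1 - U) = t.1 := by ring
    have e4 : V - q * U - q * X + (t.2 - V + q * (X - (t.1 - U))) = t.2 - q * t.1 := by ring
    have hle : (((q + 1) * X : ℕ) : ℤ) = q * X + X := by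
      push_cast
      ring
    rw [mem_filter, mem_product, mem_Icc, mem_Icc]
    refine ⟨⟨⟨?_, ?_⟩, ?_, ?_⟩, ?_, ?_⟩
    · show 1 ≤ (t.1 - U).toNat
      zify
      rw [e1]
      linarith
    · show (t.1 - U).toNat ≤ (q + 1) * X
      have : (((t.1 - U).toNat : ℕ) : ℤ) ≤ (((q + 1) * X : ℕ) : ℤ) := by
        rw [e1, hle]
        have : (0 : ℤ) ≤ q * X := by positivity
        linarith
      exact_mod_cast this
    · show 1 ≤ (t.2 - V + q * (X - (t.1 - U))).toNat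
      have : (1 : ℤ) ≤ (((t.2 - V + q * (X - (t.1 - U))).toNat : ℕ) : ℤ) := by
        rw [e2]
        linarith
      exact_mod_cast this
    · show (t.2 - V + q * (X - (t.1 - U))).toNat ≤ (q + 1) * X
      have : (((t.2 - V + q * (X - (t.1 - U))).toNat : ℕ) : ℤ) ≤ (((q + 1) * X : ℕ) : ℤ) := by
        rw [e2, hle]
        linarith
      exact_mod_cast this
    · show IsCoprime (U + (((t.1 - U).toNat : ℕ) : ℤ))
        (V - q * U - q * X + (((t.2 - V + q * (X - (t.1 - U))).toNat : ℕ) : ℤ))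
      rw [e1, e2, e3, e4]
      have e5 : t.2 - q * t.1 = t.2 + (-(q : ℤ)) * t.1 := by ring
      rw [e5]
      exact IsCoprime.add_mul_right_right_iff.2 t5
    · intro j
      show fb α' β qa' qb' qc (U + (((t.1 - U).toNat : ℕ) : ℤ))
        (V - q * U - q * X + (((t.2 - V + q * (X - (t.1 - U))).toNat : ℕ) : ℤ)) j ≠ 0
      rw [e1, e2, e3, e4, ← hfb t.1 t.2 _ rfl j]
      exact (prod_ne_zero_iff.1 t6) j (mem_univ j)
  · intro t ht t' ht' heq
    rw [mem_filter, mem_product, mem_Ioc, mem_Ioc] at ht ht'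
    obtain ⟨⟨⟨t1, t2⟩, t3, t4⟩, -⟩ := ht
    obtain ⟨⟨⟨s1, s2⟩, s3, s4⟩, -⟩ := ht'
    have p0 : 0 ≤ (q : ℤ) * (X - (t.1 - U)) := mul_nonneg (by positivity) (by linarith)
    have p0' : 0 ≤ (q : ℤ) * (X - (t'.1 - U)) := mul_nonneg (by positivity) (by linarith)
    have e1 : (((t.1 - U).toNat : ℕ) : ℤ) = t.1 - U := Int.toNat_of_nonneg (by linarith)
    have e2 : (((t.2 - V + q * (X - (t.1 - U))).toNat : ℕ) : ℤ) =
        t.2 - V + q * (X - (t.1 - U)) := Int.toNat_of_nonneg (by linarith)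
    have e1' : (((t'.1 - U).toNat : ℕ) : ℤ) = t'.1 - U := Int.toNat_of_nonneg (by linarith)
    have e2' : (((t'.2 - V + q * (X - (t'.1 - U))).toNat : ℕ) : ℤ) =
        t'.2 - V + q * (X - (t'.1 - U)) := Int.toNat_of_nonneg (by linarith)
    have h1 : (t.1 - U).toNat = (t'.1 - U).toNat := congrArg Prod.fst heq
    have h2 : (t.2 - V + q * (X - (t.1 - U))).toNat = (t'.2 - V + q * (X - (t'.1 - U))).toNat :=
      congrArg Prod.snd heq
    have h3 : t.1 = t'.1 := by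
      have : t.1 - U = t'.1 - U := by rw [← e1, ← e1', h1]
      linarith
    have h4 : t.2 = t'.2 := by
      have : t.2 - V + q * (X - (t.1 - U)) = t'.2 - V + q * (X - (t'.1 - U)) := by
        rw [← e2, ← e2', h2]
      rw [h3] at this
      linarith
    exact Prod.ext h3 h4
  · intro t ht
    rw [mem_filter, mem_product, mem_Ioc, mem_Ioc] at ht
    obtain ⟨⟨⟨t1, t2⟩, t3, t4⟩, -⟩ := ht
    have p0 : 0 ≤ (q : ℤ) * (X - (t.1 - U)) := mul_nonneg (by positivity) (by linarith)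
    have e1 : (((t.1 - U).toNat : ℕ) : ℤ) = t.1 - U := Int.toNat_of_nonneg (by linarith)
    have e2 : (((t.2 - V + q * (X - (t.1 - U))).toNat : ℕ) : ℤ) =
        t.2 - V + q * (X - (t.1 - U)) := Int.toNat_of_nonneg (by linarith)
    have e3 : U + (t.1 - U) = t.1 := by ring
    have e4 : V - q * U - q * X + (t.2 - V + q * (X - (t.1 - U))) = t.2 - q * t.1 := by ring
    have hprod : ∏ j, fb α β qa qb qc t.1 t.2 j =
        ∏ j, fb α' β qa' qb' qc (U + (((t.1 - U).toNat : ℕ) : ℤ))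
          (V - q * U - q * X + (((t.2 - V + q * (X - (t.1 - U))).toNat : ℕ) : ℤ)) j := by
      rw [e1, e2, e3, e4]
      exact prod_congr rfl (fun j _ => hfb t.1 t.2 _ rfl j)
    rw [hprod]
  · intro s _
    positivity

end Pool.Agent.W54.QF
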